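import Mathlib

set_option autoImplicit false

namespace Pool.Agent.Results.MP_285f62_co.Counter

open Finset

/-- The blow-up `G(t)`. -/
def blowUp {V : Type} (G : SimpleGraph V) (t : ℕ) : SimpleGraph (V × Fin t) where
  Adj x y := G.Adj x.1 y.1
  symm := ⟨fun _ _ h => h.symm⟩
  loopless := ⟨fun _ h => G.irrefl h⟩

/-- A triangle factor: a set of triangles such that every vertex lies in exactly one. -/
def HasTriangleFactor {V : Type} (H : SimpleGraph V) : Prop :=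
  ∃ P : Set (Finset V), (∀ s ∈ P, H.IsNClique 3 s) ∧ ∀ v, ∃! s, s ∈ P ∧ v ∈ s

def E : List (Fin 9 × Fin 9) := [(0, 2), (1, 3), (0, 4), (2, 4), (1, 5), (3, 5), (0, 6), (2, 6),
  (4, 6), (1, 7), (3, 7), (5, 7), (0, 8), (1, 8), (2, 8), (3, 8), (4, 8), (6, 8)]

def G0 : SimpleGraph (Fin 9) where
  Adj a b := (a, b) ∈ E ∨ (b, a) ∈ E
  symm := ⟨fun _ _ h => h.symm⟩
  loopless := ⟨by decide⟩

instance : DecidableRel G0.Adj := fun a b => inferInstanceAs (Decidable ((a, b) ∈ E ∨ (b, a) ∈ E))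

lemma of_list {V : Type} [DecidableEq V] (H : SimpleGraph V) (L : List (V × V × V))
    (h1 : ∀ s ∈ L, H.Adj s.1 s.2.1 ∧ H.Adj s.1 s.2.2 ∧ H.Adj s.2.1 s.2.2)
    (h2 : ∀ v, ∃ s ∈ L, (v = s.1 ∨ v = s.2.1 ∨ v = s.2.2) ∧
      ∀ s' ∈ L, (v = s'.1 ∨ v = s'.2.1 ∨ v = s'.2.2) → s' = s) :
    HasTriangleFactor H := by
  refine ⟨{s | ∃ q ∈ L, s = {q.1, q.2.1, q.2.2}}, ?_, fun v => ?_⟩
  · rintro _ ⟨q, hq, rfl⟩
    exact SimpleGraph.is3Clique_triple_iff.mpr (h1 q hq)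
  · obtain ⟨s, hs, hv, h⟩ := h2 v
    refine ⟨_, ⟨⟨s, hs, rfl⟩, by simpa using hv⟩, ?_⟩
    rintro _ ⟨⟨q, hq, rfl⟩, hv'⟩
    rw [h q hq (by simpa using hv')]

lemma two : HasTriangleFactor (blowUp G0 2) :=
  of_list _ [((0,0),(2,0),(4,0)), ((0,1),(2,1),(6,0)), ((1,0),(3,0),(8,0)), ((1,1),(5,0),(7,0)),
    ((3,1),(5,1),(7,1)), ((4,1),(6,1),(8,1))] (by intro s hs; fin_cases hs <;> (unfold blowUp; decide))
    (fun ⟨a, b⟩ => by revert a b; decide +kernel)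

lemma three : HasTriangleFactor (blowUp G0 3) :=
  of_list _ [((0,0),(2,0),(4,0)), ((0,1),(2,1),(4,1)), ((0,2),(6,0),(8,0)), ((1,0),(3,0),(5,0)),
    ((1,1),(3,1),(7,0)), ((1,2),(5,1),(7,1)), ((2,2),(6,1),(8,1)), ((3,2),(5,2),(7,2)),
    ((4,2),(6,2),(8,2))] (by intro s hs; fin_cases hs <;> (unfold blowUp; decide))
    (fun ⟨a, b⟩ => by revert a b; decide +kernel)

def T : List (Finset (Fin 9)) := [{0, 2, 4}, {0, 2, 6}, {0, 2, 8}, {0, 4, 6}, {0, 4, 8}, {0, 6, 8},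
  {1, 3, 5}, {1, 3, 7}, {1, 3, 8}, {1, 5, 7}, {2, 4, 6}, {2, 4, 8}, {2, 6, 8}, {3, 5, 7}, {4, 6, 8}]

lemma mem_T : ∀ a b c : Fin 9, G0.Adj a b → G0.Adj a c → G0.Adj b c → {a, b, c} ∈ T := by
  decide +kernel

lemma no_three : ∀ s ∈ T, ∃ v, v ∉ s ∧ ∀ s' ∈ T, v ∈ s' → Disjoint s s' →
    ∃ w, w ∉ s ∧ w ∉ s' ∧ ∀ s'' ∈ T, w ∈ s'' → Disjoint s s'' → ¬ Disjoint s' s'' := by
  decide +kernel

lemma not_one : ¬ HasTriangleFactor G0 := by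
  rintro ⟨P, h1, h2⟩
  have hT : ∀ s ∈ P, s ∈ T := by
    intro s hs
    obtain ⟨a, b, c, hab, hac, hbc, rfl⟩ := SimpleGraph.is3Clique_iff.mp (h1 s hs)
    exact mem_T a b c hab hac hbc
  have hd : ∀ s ∈ P, ∀ s' ∈ P, ∀ v, v ∉ s → v ∈ s' → Disjoint s s' := by
    intro s hs s' hs' v hv hv'
    rw [disjoint_left]
    intro x hx hx'
    exact hv ((h2 x).unique ⟨hs', hx'⟩ ⟨hs, hx⟩ ▸ hv')
  obtain ⟨s, hs, _⟩ := (h2 0).exists
  obtain ⟨v, hv, h⟩ := no_three s (hT s hs)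
  obtain ⟨s', hs', hv'⟩ := (h2 v).exists
  obtain ⟨w, hw, hw', h'⟩ := h s' (hT s' hs') hv' (hd s hs s' hs' v hv hv')
  obtain ⟨s'', hs'', hw''⟩ := (h2 w).exists
  exact h' s'' (hT s'' hs'') hw'' (hd s hs s'' hs'' w hw hw'') (hd s' hs' s'' hs'' w hw' hw'')

theorem result : ∃ (n : ℕ) (G : SimpleGraph (Fin n)) (t : ℕ), 0 < t ∧
    HasTriangleFactor (blowUp G t) ∧ HasTriangleFactor (blowUp G (t + 1)) ∧
      ¬ HasTriangleFactor G :=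
  ⟨9, G0, 2, by norm_num, two, three, not_one⟩

end Pool.Agent.Results.MP_285f62_co.Counter
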